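import Pool.Agent.H82.SZ2.Defs
import Pool.Agent.H53.SZC.Er

/-!
# MP_103a5c SimpleZeros v2, block I1

`J2 fz 0 ≤ C ‖MZ‖ + C T^(3/4)`: the integral of `|fz|²` on the critical line is bounded by the one of
`hz = G E (ζ M)(s) (ζ M)(1 - s)`, `E = 1 - exp (-zz⁴)`, which is moved to the line `Re s = 1 + 1/L`.
-/

set_option autoImplicit false

open Complex MeasureTheory Filter Topology Set

namespace Pool.Agent.H17.SZ2

open H82SZ Pool.Agent.H53.SZC Pool.Agent.H17.ZB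

/-- `(s - 1) ζ(s) M(s)` -/
noncomputable def zm (P : ℝ → ℝ) (T : ℝ) (s : ℂ) : ℂ := Z s * dpol T (xk P T) s

/-- `G E (ζ M)(s) (ζ M)(1 - s)`, entire -/
noncomputable def hz (P : ℝ → ℝ) (T : ℝ) (w : ℂ) : ℂ :=
  Gs T (1 / 2 + w) * (zm P T (1 / 2 + w) * zm P T (1 / 2 - w)) * (-(zz w ^ 3 * psi (zz w ^ 4)))

variable {P : ℝ → ℝ} {T : ℝ}

theorem zm_differentiable : Differentiable ℂ (zm P T) := by
  unfold zm
  exact Z_differentiable.mul (dpol_differentiable _)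

theorem hz_differentiable : Differentiable ℂ (hz P T) := by
  unfold hz
  have h1 : Differentiable ℂ (fun w : ℂ => Gs T (1 / 2 + w)) := by unfold Gs; fun_prop
  have h2 : Differentiable ℂ (fun w : ℂ => zm P T (1 / 2 + w)) :=
    zm_differentiable.comp (by fun_prop : Differentiable ℂ (fun w : ℂ => 1 / 2 + w))
  have h3 : Differentiable ℂ (fun w : ℂ => zm P T (1 / 2 - w)) :=
    zm_differentiable.comp (by fun_prop : Differentiable ℂ (fun w : ℂ => 1 / 2 - w))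
  have h4 : Differentiable ℂ zz := by unfold zz; fun_prop
  have h5 : Differentiable ℂ (fun w : ℂ => psi (zz w ^ 4)) := psi_differentiable.comp (h4.pow 4)
  exact (h1.mul (h2.mul h3)).mul ((h4.pow 3).mul h5).neg

theorem hz_eq {w : ℂ} (h1 : w ≠ 1 / 2) (h2 : w ≠ -(1 / 2)) :
    hz P T w = Gs T (1 / 2 + w) * Ee w * (ZM P T (1 / 2 + w) * ZM P T (1 / 2 - w)) := by
  have h3 : (1 / 2 + w : ℂ) ≠ 1 := by
    intro h
    apply h1
    linear_combination h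
  have h4 : (1 / 2 - w : ℂ) ≠ 1 := by
    intro h
    apply h2
    linear_combination -h
  have h5 := psi_mul (zz w ^ 4)
  unfold hz Ee zm ZM
  rw [Z_of_ne h3, Z_of_ne h4, ← h5]
  unfold zz
  ring

theorem zm_conj (s : ℂ) : zm P T ((starRingEnd ℂ) s) = (starRingEnd ℂ) (zm P T s) := by
  unfold zm
  rw [Z_conj, dpol_conj, map_mul]

theorem hz_line (t : ℝ) : hz P T (ln 0 t) =
    ((Pool.Agent.H26.SZ.Gw T t * ‖zm P T (1 / 2 + ln 0 t)‖ ^ 2 *
      ((1 - Real.exp (-((t ^ 2 + 1 / 4) ^ 4))) / (t ^ 2 + 1 / 4)) : ℝ) : ℂ) := by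
  have hln : ln 0 t = t * I := by unfold ln; simp
  rw [hln]
  have h4 : Gs T (1 / 2 + t * I) = ((Pool.Agent.H26.SZ.Gw T t : ℝ) : ℂ) := by
    unfold Gs Pool.Agent.H26.SZ.Gw
    rw [Complex.ofReal_exp]
    congr 1
    push_cast
    linear_combination (((t : ℂ) - T) ^ 2 * (Real.log T : ℂ) / (T : ℂ) ^ 2) * Complex.I_sq
  have h6 : (1 / 2 - (t : ℂ) * I) = (starRingEnd ℂ) (1 / 2 + t * I) := by
    simp only [map_div₀, map_add, map_mul, map_one, map_ofNat, Complex.conj_ofReal, Complex.conj_I]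
    ring
  have hzz : zz ((t : ℂ) * I) = -((t ^ 2 + 1 / 4 : ℝ) : ℂ) := by
    unfold zz
    push_cast
    linear_combination ((t : ℂ) ^ 2) * Complex.I_sq
  have hu : (0 : ℝ) < t ^ 2 + 1 / 4 := by positivity
  have huC : ((t ^ 2 + 1 / 4 : ℝ) : ℂ) ≠ 0 := by exact_mod_cast hu.ne'
  have h7 : -(zz ((t : ℂ) * I) ^ 3 * psi (zz ((t : ℂ) * I) ^ 4)) =
      (((1 - Real.exp (-((t ^ 2 + 1 / 4) ^ 4))) / (t ^ 2 + 1 / 4) : ℝ) : ℂ) := by
    have h8 := psi_mul (zz ((t : ℂ) * I) ^ 4)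
    rw [hzz] at h8 ⊢
    generalize hU : t ^ 2 + 1 / 4 = U at h8 huC ⊢
    have h9 : (-(U : ℂ)) ^ 4 = (U : ℂ) ^ 4 := by ring
    rw [h9] at h8 ⊢
    rw [Complex.ofReal_div, eq_div_iff huC]
    push_cast
    rw [← h8]
    ring
  unfold hz
  rw [h4, h6, zm_conj, Complex.mul_conj, Complex.normSq_eq_norm_sq, h7]
  push_cast
  ring

theorem fz_line (t : ℝ) : ‖fz P T (ln 0 t)‖ ^ 2 =
    Pool.Agent.H26.SZ.Gw T t * ‖zm P T (1 / 2 + ln 0 t)‖ ^ 2 / (t ^ 2 + 9 / 4) := by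
  unfold fz zm
  have h1 : ‖(3 / 2 + ln 0 t : ℂ)‖ ^ 2 = t ^ 2 + 9 / 4 := by
    rw [← Complex.normSq_eq_norm_sq, Complex.normSq_apply]
    simp [ln]
    ring
  have h2 : ‖Complex.exp ((ln 0 t - T * Complex.I) ^ 2 * (Real.log T : ℂ) / (2 * (T : ℂ) ^ 2))‖ ^ 2 =
      Pool.Agent.H26.SZ.Gw T t := by
    rw [Complex.norm_exp, ← Real.exp_nat_mul]
    unfold Pool.Agent.H26.SZ.Gw
    congr 1
    have h3 : ((ln 0 t - T * Complex.I) ^ 2 * (Real.log T : ℂ) / (2 * (T : ℂ) ^ 2)) =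
        ((-((t - T) ^ 2 * Real.log T / (2 * T ^ 2)) : ℝ) : ℂ) := by
      unfold ln
      push_cast
      linear_combination (((t : ℂ) - T) ^ 2 * (Real.log T : ℂ) / (2 * (T : ℂ) ^ 2)) * Complex.I_sq
    rw [h3, Complex.ofReal_re]
    push_cast
    by_cases hT : T = 0
    · subst hT; simp
    · field_simp
  rw [norm_mul, norm_mul, norm_div, mul_pow, mul_pow, div_pow, h1, h2, norm_mul, mul_pow]
  ring

private theorem I1_poly (t : ℝ) : (1 + t ^ 2) ^ 3 ≤ 5832 * Real.exp |t| := by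
  have h1 := Real.quadratic_le_exp_of_nonneg (x := |t| / 3) (by positivity)
  have h2 : 0 ≤ |t| := abs_nonneg t
  have h5 : t ^ 2 = |t| ^ 2 := (sq_abs t).symm
  have h3 : 1 + t ^ 2 ≤ 18 * Real.exp (|t| / 3) := by
    rw [h5]
    nlinarith
  calc (1 + t ^ 2) ^ 3 ≤ (18 * Real.exp (|t| / 3)) ^ 3 := by gcongr
    _ = 5832 * Real.exp |t| := by
        have : Real.exp |t| = Real.exp (|t| / 3) ^ 3 := by
          rw [← Real.exp_nat_mul]; congr 1; push_cast; ring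
        rw [this]; ring

private theorem I1_exp {κ t T : ℝ} (hκ : 0 < κ) :
    7 * |t| - κ * (t - T) ^ 2 ≤ 7 * |T| + 49 / (4 * κ) := by
  have h1 : |t| ≤ |t - T| + |T| := by
    have h2 := abs_add_le (t - T) T
    rwa [sub_add_cancel] at h2
  have h3 : |t - T| ^ 2 = (t - T) ^ 2 := sq_abs _
  have h4 : 0 ≤ κ * (|t - T| - 7 / (2 * κ)) ^ 2 := by positivity
  have h5 : κ * (|t - T| - 7 / (2 * κ)) ^ 2 =
      κ * (t - T) ^ 2 - 7 * |t - T| + 49 / (4 * κ) := by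
    rw [← h3]
    field_simp
    ring
  rw [h5] at h4
  linarith

theorem hz_SD (hT : 1 < T) : ∃ K : ℝ, SD 3 (-1) 1 K (hz P T) := by
  obtain ⟨C1, hC1, hZ⟩ := Z_exp
  obtain ⟨C2, hC2, hM⟩ := dpol_strip (T := T) (xk P T)
  obtain ⟨C', hC', hz'⟩ := zpsi_bd
  have hL : 0 < Real.log T := Real.log_pos hT
  obtain ⟨κ, hκ⟩ : ∃ κ, κ = Real.log T / T ^ 2 := ⟨_, rfl⟩
  have hκ0 : 0 < κ := by
    rw [hκ]
    have : 0 < T := by linarith
    positivity
  obtain ⟨C, hC⟩ : ∃ C, C = C1 * C2 := ⟨_, rfl⟩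
  have hC0 : 0 ≤ C := by rw [hC]; positivity
  refine ⟨Real.exp (κ + (7 * |T| + 49 / (4 * κ))) * (C ^ 2 * (2 * C') * 5832),
    fun w _ _ => hz_differentiable w, fun w h1 h2 => ?_⟩
  have hx : w.re ^ 2 ≤ 1 := by
    rw [sq_le_one_iff_abs_le_one, abs_le]
    exact ⟨h1, h2⟩
  have g1 : ‖Gs T (1 / 2 + w)‖ ≤ Real.exp (κ - κ * (w.im - T) ^ 2) := by
    rw [Gs_norm]
    apply Real.exp_le_exp.2
    have h3 : (w.re ^ 2 - (w.im - T) ^ 2) * Real.log T / T ^ 2 =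
        κ * w.re ^ 2 - κ * (w.im - T) ^ 2 := by
      rw [hκ]
      ring
    rw [h3]
    have h4 : κ * w.re ^ 2 ≤ κ * 1 := mul_le_mul_of_nonneg_left hx hκ0.le
    linarith
  have r1 : ((1 / 2 : ℂ) + w).re = 1 / 2 + w.re := by simp
  have r2 : ((1 / 2 : ℂ) + w).im = w.im := by simp
  have r3 : ((1 / 2 : ℂ) - w).re = 1 / 2 - w.re := by simp
  have r4 : ((1 / 2 : ℂ) - w).im = -w.im := by simp
  have g2 : ‖zm P T (1 / 2 + w)‖ ≤ C * Real.exp (2 * |w.im|) := by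
    have h3 := hZ (1 / 2 + w) (by rw [r1]; linarith) (by rw [r1]; linarith)
    have h4 := hM (1 / 2 + w) (by rw [r1]; linarith)
    rw [r2] at h3
    unfold zm
    rw [norm_mul, hC]
    calc _ ≤ (C1 * Real.exp (2 * |w.im|)) * C2 := mul_le_mul h3 h4 (norm_nonneg _) (by positivity)
      _ = _ := by ring
  have g3 : ‖zm P T (1 / 2 - w)‖ ≤ C * Real.exp (2 * |w.im|) := by
    have h3 := hZ (1 / 2 - w) (by rw [r3]; linarith) (by rw [r3]; linarith)
    have h4 := hM (1 / 2 - w) (by rw [r3]; linarith)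
    rw [r4, abs_neg] at h3
    unfold zm
    rw [norm_mul, hC]
    calc _ ≤ (C1 * Real.exp (2 * |w.im|)) * C2 := mul_le_mul h3 h4 (norm_nonneg _) (by positivity)
      _ = _ := by ring
  have g4 : ‖-(zz w ^ 3 * psi (zz w ^ 4))‖ ≤ 2 * C' * Real.exp (2 * |w.im|) := by
    have h3 := hz' w (abs_le.2 ⟨h1, h2⟩)
    have h4 : ‖zz w‖ ≤ 2 * Real.exp (2 * |w.im|) := by
      unfold zz
      have h5 : ‖w ^ 2 - 1 / 4‖ ≤ ‖w‖ ^ 2 + 1 / 4 := by
        refine (norm_sub_le _ _).trans ?_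
        rw [norm_pow]
        norm_num
      have h6 : ‖w‖ ^ 2 = w.re ^ 2 + w.im ^ 2 := by
        rw [← Complex.normSq_eq_norm_sq, Complex.normSq_apply]
        ring
      have h7 : 2 * |w.im| + 1 + (2 * |w.im|) ^ 2 / 2 ≤ Real.exp (2 * |w.im|) := by
        have := Real.quadratic_le_exp_of_nonneg (x := 2 * |w.im|) (by positivity)
        linarith
      have h8 : |w.im| ^ 2 = w.im ^ 2 := sq_abs _
      have h9 : 0 ≤ |w.im| := abs_nonneg _
      nlinarith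
    have h5 : -(zz w ^ 3 * psi (zz w ^ 4)) = -(zz w * (zz w ^ 2 * psi (zz w ^ 4))) := by ring
    rw [h5, norm_neg, norm_mul]
    calc _ ≤ (2 * Real.exp (2 * |w.im|)) * C' := mul_le_mul h4 h3 (norm_nonneg _) (by positivity)
      _ = _ := by ring
  have hp := I1_poly w.im
  have hpos : 0 < (1 + w.im ^ 2) ^ 3 := by positivity
  rw [le_div_iff₀ hpos]
  have hmain : ‖hz P T w‖ ≤ Real.exp (κ - κ * (w.im - T) ^ 2) *
      (C * Real.exp (2 * |w.im|) * (C * Real.exp (2 * |w.im|))) * (2 * C' * Real.exp (2 * |w.im|)) := by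
    unfold hz
    rw [norm_mul, norm_mul, norm_mul]
    refine mul_le_mul (mul_le_mul g1 ?_ (by positivity) (Real.exp_nonneg _)) g4
      (norm_nonneg _) (by positivity)
    exact mul_le_mul g2 g3 (norm_nonneg _) (by positivity)
  calc ‖hz P T w‖ * (1 + w.im ^ 2) ^ 3 ≤
      (Real.exp (κ - κ * (w.im - T) ^ 2) *
        (C * Real.exp (2 * |w.im|) * (C * Real.exp (2 * |w.im|))) *
        (2 * C' * Real.exp (2 * |w.im|))) *
        (5832 * Real.exp |w.im|) :=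
        mul_le_mul hmain hp hpos.le (by positivity)
    _ = Real.exp (κ + (7 * |w.im| - κ * (w.im - T) ^ 2)) * (C ^ 2 * (2 * C') * 5832) := by
        have h5 : κ + (7 * |w.im| - κ * (w.im - T) ^ 2) =
            (κ - κ * (w.im - T) ^ 2) + (2 * |w.im| + (2 * |w.im| + (2 * |w.im| + |w.im|))) := by ring
        rw [h5, Real.exp_add (κ - κ * (w.im - T) ^ 2),
          Real.exp_add (2 * |w.im|) (2 * |w.im| + (2 * |w.im| + |w.im|)),
          Real.exp_add (2 * |w.im|) (2 * |w.im| + |w.im|), Real.exp_add (2 * |w.im|) |w.im|]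
        ring
    _ ≤ Real.exp (κ + (7 * |T| + 49 / (4 * κ))) * (C ^ 2 * (2 * C') * 5832) := by
        refine mul_le_mul_of_nonneg_right (Real.exp_le_exp.2 ?_) (by positivity)
        have h6 := I1_exp (t := w.im) (T := T) hκ0
        linarith

/-! ## the line `Re s = aT T` -/

private theorem I1_bd {θ : ℝ} {Q : ℝ → ℝ} (h : Adm θ Q) : ∃ C : ℝ, 0 ≤ C ∧ ∀ v, |Q v| ≤ C := by
  obtain ⟨C, hC⟩ := h.cpt.exists_bound_of_continuous h.smooth.continuous
  exact ⟨|C|, abs_nonneg _, fun v => (hC v).trans (le_abs_self C)⟩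

private theorem I1_nrm {n : ℕ} (hn : 1 ≤ n) (s : ℂ) : ‖(n : ℂ) ^ (-s)‖ = (n : ℝ) ^ (-s.re) := by
  rw [Complex.norm_natCast_cpow_of_pos hn]; simp

private theorem I1_zeta : ∃ C : ℝ, 0 ≤ C ∧ ∀ σ : ℝ, 1 < σ → σ ≤ 2 →
    (∑' n : ℕ, 1 / (n : ℝ) ^ σ) ≤ C / (σ - 1) := by
  obtain ⟨C, hC0, hC⟩ := Z_poly
  refine ⟨C, hC0, fun σ h1 h2 => ?_⟩
  have hz := zeta_eq_tsum_one_div_nat_cpow (s := (σ : ℂ)) (by simpa using h1)
  have hc : (∑' n : ℕ, 1 / (n : ℂ) ^ (σ : ℂ)) = ((∑' n : ℕ, 1 / (n : ℝ) ^ σ : ℝ) : ℂ) := by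
    rw [Complex.ofReal_tsum]
    refine tsum_congr fun n => ?_
    push_cast
    rw [Complex.ofReal_cpow (Nat.cast_nonneg n)]
    simp
  have hne : (σ : ℂ) ≠ 1 := by
    intro h
    have : σ = 1 := by exact_mod_cast h
    linarith
  have hZ := hC (σ : ℂ) (by simp; linarith) (by simp; linarith)
  rw [Z_of_ne hne, hz, hc, norm_mul] at hZ
  have h3 : ‖(σ : ℂ) - 1‖ = σ - 1 := by
    rw [show (σ : ℂ) - 1 = ((σ - 1 : ℝ) : ℂ) by push_cast; ring, Complex.norm_real, Real.norm_eq_abs,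
      abs_of_pos (by linarith)]
  rw [h3, Complex.norm_real] at hZ
  simp only [Complex.ofReal_im, abs_zero, add_zero, one_pow, mul_one] at hZ
  rw [le_div_iff₀ (by linarith)]
  have h4 := Real.le_norm_self (∑' n : ℕ, 1 / (n : ℝ) ^ σ)
  calc (∑' n : ℕ, 1 / (n : ℝ) ^ σ) * (σ - 1) ≤ ‖∑' n : ℕ, 1 / (n : ℝ) ^ σ‖ * (σ - 1) :=
        mul_le_mul_of_nonneg_right h4 (by linarith)
    _ = (σ - 1) * ‖∑' n : ℕ, 1 / (n : ℝ) ^ σ‖ := mul_comm _ _
    _ ≤ C := hZ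

private theorem I1_re (T t : ℝ) : ((aT T : ℂ) + t * I).re = aT T := by simp

private theorem I1_ar {T : ℝ} (hL : 1 ≤ Real.log T) : 1 < aT T ∧ aT T ≤ 2 := by
  unfold aT
  have h1 : 0 < 1 / Real.log T := by positivity
  have h2 : 1 / Real.log T ≤ 1 := by rw [div_le_one (by linarith)]; exact hL
  constructor <;> linarith

private theorem I1_zr {C : ℝ} (hC : ∀ σ : ℝ, 1 < σ → σ ≤ 2 → (∑' n : ℕ, 1 / (n : ℝ) ^ σ) ≤ C / (σ - 1))
    {T : ℝ} (hL : 1 ≤ Real.log T) (t : ℝ) :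
    ‖riemannZeta (aT T + t * I)‖ ≤ C * Real.log T := by
  have har := I1_ar hL
  have hs : 1 < ((aT T : ℂ) + t * I).re := by rw [I1_re]; exact har.1
  rw [zeta_eq_tsum_one_div_nat_cpow hs]
  have hsum : Summable (fun n : ℕ => 1 / (n : ℝ) ^ (aT T)) := Real.summable_one_div_nat_rpow.mpr har.1
  have hb : ‖∑' n : ℕ, 1 / (n : ℂ) ^ ((aT T : ℂ) + t * I)‖ ≤ (∑' n : ℕ, 1 / (n : ℝ) ^ (aT T)) := by
    refine tsum_of_norm_bounded hsum.hasSum fun n => ?_
    rcases Nat.eq_zero_or_pos n with hn | hn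
    · subst hn
      have h0 : ((aT T : ℂ) + t * I) ≠ 0 := by
        intro h
        rw [h] at hs
        simp at hs
        linarith
      simp [Complex.zero_cpow h0]
      positivity
    · rw [norm_div, norm_one, Complex.norm_natCast_cpow_of_pos hn, I1_re]
  refine hb.trans ((hC _ har.1 har.2).trans (le_of_eq ?_))
  unfold aT
  rw [add_sub_cancel_left]
  field_simp

private theorem I1_dpol {T : ℝ} (a : ArithmeticFunction ℝ) (s : ℂ) {A B M : ℝ} (hA : 0 ≤ A) (hB : 0 ≤ B) (hM : 0 ≤ M)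
    (ha : ∀ n ∈ Finset.Icc 1 (NT T), |a n| ≤ A) (hb : ∀ n ∈ Finset.Icc 1 (NT T), ‖(n : ℂ) ^ (-s)‖ ≤ B)
    (hz : ∀ n ∈ Finset.Icc 1 (NT T), a n = 0 ∨ (n : ℝ) ≤ M) : ‖dpol T a s‖ ≤ A * B * M := by
  unfold dpol
  have h1 : ∀ n ∈ Finset.Icc 1 (NT T), ‖(a n : ℂ) * (n : ℂ) ^ (-s)‖ ≤ if (n : ℝ) ≤ M then A * B else 0 := by
    intro n hn
    rw [norm_mul, Complex.norm_real, Real.norm_eq_abs]
    split_ifs with h
    · exact mul_le_mul (ha n hn) (hb n hn) (norm_nonneg _) hA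
    · rcases hz n hn with h0 | h0
      · rw [h0]; simp
      · exact absurd h0 h
  refine (norm_sum_le _ _).trans ((Finset.sum_le_sum h1).trans ?_)
  rw [← Finset.sum_filter, Finset.sum_const, nsmul_eq_mul]
  have h2 : (Finset.filter (fun n : ℕ => (n : ℝ) ≤ M) (Finset.Icc 1 (NT T))) ⊆ Finset.Icc 1 ⌊M⌋₊ := by
    intro n hn
    rw [Finset.mem_filter, Finset.mem_Icc] at hn
    rw [Finset.mem_Icc]
    exact ⟨hn.1.1, Nat.le_floor hn.2⟩
  have h3 := Finset.card_le_card h2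
  rw [Nat.card_Icc, Nat.add_sub_cancel] at h3
  have h4 : ((Finset.card (Finset.filter (fun n : ℕ => (n : ℝ) ≤ M) (Finset.Icc 1 (NT T))) : ℕ) : ℝ) ≤ M :=
    (Nat.cast_le.mpr h3).trans (Nat.floor_le hM)
  calc _ ≤ M * (A * B) := mul_le_mul_of_nonneg_right h4 (by positivity)
    _ = _ := by ring

private theorem I1_dpolr {C : ℝ} (hC : ∀ σ : ℝ, 1 < σ → σ ≤ 2 → (∑' n : ℕ, 1 / (n : ℝ) ^ σ) ≤ C / (σ - 1))
    {T : ℝ} (hL : 1 ≤ Real.log T) (t : ℝ) (a : ArithmeticFunction ℝ) {A : ℝ} (hA : 0 ≤ A)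
    (ha : ∀ n ∈ Finset.Icc 1 (NT T), |a n| ≤ A) : ‖dpol T a (aT T + t * I)‖ ≤ A * (C * Real.log T) := by
  have har := I1_ar hL
  unfold dpol
  have h1 : ∀ n ∈ Finset.Icc 1 (NT T), ‖(a n : ℂ) * (n : ℂ) ^ (-((aT T : ℂ) + t * I))‖ ≤ A * (1 / (n : ℝ) ^ (aT T)) := by
    intro n hn
    have hn1 := (Finset.mem_Icc.mp hn).1
    rw [norm_mul, Complex.norm_real, Real.norm_eq_abs, I1_nrm hn1, I1_re, Real.rpow_neg (Nat.cast_nonneg n), one_div]
    exact mul_le_mul_of_nonneg_right (ha n hn) (by positivity)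
  refine (norm_sum_le _ _).trans ((Finset.sum_le_sum h1).trans ?_)
  rw [← Finset.mul_sum]
  refine mul_le_mul_of_nonneg_left ?_ hA
  have hsum : Summable (fun n : ℕ => 1 / (n : ℝ) ^ (aT T)) := Real.summable_one_div_nat_rpow.mpr har.1
  have h2 : ∑ n ∈ Finset.Icc 1 (NT T), 1 / (n : ℝ) ^ (aT T) ≤ ∑' n : ℕ, 1 / (n : ℝ) ^ (aT T) :=
    hsum.sum_le_tsum _ (fun n _ => by positivity)
  refine h2.trans ((hC _ har.1 har.2).trans (le_of_eq ?_))
  unfold aT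
  rw [add_sub_cancel_left]
  field_simp

private theorem I1_nT {T : ℝ} (hT : 0 < T) {n : ℕ} (hn : n ∈ Finset.Icc 1 (NT T)) :
    (1 : ℝ) ≤ n ∧ (n : ℝ) ≤ T := by
  rw [Finset.mem_Icc] at hn
  exact ⟨by exact_mod_cast hn.1, (Nat.cast_le.mpr hn.2).trans (Nat.floor_le hT.le)⟩

private theorem I1_xk {Cp : ℝ} (hCp : ∀ v, |P v| ≤ Cp) (T : ℝ) :
    ∀ n ∈ Finset.Icc 1 (NT T), |xk P T n| ≤ Cp := by
  intro n _
  have h1 : xk P T n = (ArithmeticFunction.moebius n : ℝ) * P (Real.log n / Real.log T) := rfl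
  rw [h1, abs_mul]
  have h2 : |(ArithmeticFunction.moebius n : ℝ)| ≤ 1 := by
    have := ArithmeticFunction.abs_moebius_le_one (n := n)
    rw [← Int.cast_abs]
    exact_mod_cast this
  calc _ ≤ 1 * Cp := mul_le_mul h2 (hCp _) (abs_nonneg _) zero_le_one
    _ = Cp := one_mul _

private theorem I1_supp {θ T : ℝ} {n : ℕ} (hn : (1 : ℝ) ≤ n) (hT : 0 < T) (hL : 1 ≤ Real.log T) :
    θ ≤ Real.log n / Real.log T ∨ (n : ℝ) ≤ T ^ θ := by
  have hL0 : 0 < Real.log T := by linarith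
  rcases le_or_gt θ (Real.log n / Real.log T) with h | h
  · exact Or.inl h
  · right
    rw [div_lt_iff₀ hL0] at h
    rw [Real.rpow_def_of_pos hT, ← Real.log_le_iff_le_exp (by linarith)]
    linarith

/-- `ζ M` on the right line -/
private theorem I1_right {ε : ℝ} (hP : Adm (1 / 2 - ε) P) : ∃ C : ℝ, 0 ≤ C ∧
    ∀ T, 1 ≤ Real.log T → ∀ t : ℝ, ‖ZM P T (aT T + t * I)‖ ≤ C * Real.log T ^ 2 := by
  obtain ⟨C, hC0, hC⟩ := I1_zeta
  obtain ⟨Cp, hCp0, hCp⟩ := I1_bd hP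
  refine ⟨C * (Cp * C), by positivity, fun T hL t => ?_⟩
  have h1 := I1_zr hC hL t
  have h3 := I1_dpolr hC hL t (xk P T) (A := Cp) hCp0 (I1_xk hCp T)
  unfold ZM
  rw [norm_mul]
  calc _ ≤ (C * Real.log T) * (Cp * (C * Real.log T)) := mul_le_mul h1 h3 (norm_nonneg _) (by positivity)
    _ = _ := by ring

/-- `ζ M` on the left line -/
private theorem I1_left {ε : ℝ} (hε : 0 < ε) (hP : Adm (1 / 2 - ε) P) : ∃ C : ℝ, 0 ≤ C ∧
    ∀ T, Real.exp 1 ≤ T → ∀ t : ℝ,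
      ‖ZM P T (1 - (aT T + t * I))‖ ≤ C * T ^ (1 / 2 : ℝ) * Real.exp (3 * |t|) := by
  obtain ⟨Cz, hCz0, hCz⟩ := Z_exp
  obtain ⟨Cp, hCp0, hCp⟩ := I1_bd hP
  refine ⟨Cz * (Cp * Real.exp 1), by positivity, fun T hT t => ?_⟩
  have hT0 : 0 < T := (Real.exp_pos 1).trans_le hT
  have hL : 1 ≤ Real.log T := (Real.le_log_iff_exp_le hT0).2 hT
  have hT1 : 1 ≤ T := by
    have := Real.add_one_le_exp 1
    linarith
  have hL0 : 0 < Real.log T := by linarith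
  have hre : (1 - ((aT T : ℂ) + t * I)).re = -(1 / Real.log T) := by
    rw [Complex.sub_re, I1_re]; simp [aT]
  have him : (1 - ((aT T : ℂ) + t * I)).im = -t := by simp
  have hM1 : (1 : ℝ) ≤ T ^ (1 / 2 : ℝ) := Real.one_le_rpow hT1 (by norm_num)
  have hb : ∀ n ∈ Finset.Icc 1 (NT T), ‖(n : ℂ) ^ (-(1 - ((aT T : ℂ) + t * I)))‖ ≤ Real.exp 1 := by
    intro n hn
    obtain ⟨hn1, hnT⟩ := I1_nT hT0 hn
    rw [I1_nrm (Finset.mem_Icc.mp hn).1, hre, neg_neg]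
    calc (n : ℝ) ^ (1 / Real.log T) ≤ T ^ (1 / Real.log T) :=
          Real.rpow_le_rpow (by linarith) hnT (by positivity)
      _ = Real.exp 1 := by
          rw [Real.rpow_def_of_pos hT0]
          congr 1
          field_simp
  have h3 : ‖dpol T (xk P T) (1 - ((aT T : ℂ) + t * I))‖ ≤ Cp * Real.exp 1 * T ^ (1 / 2 : ℝ) := by
    refine I1_dpol _ _ hCp0 (Real.exp_pos 1).le (by linarith) (I1_xk hCp T) hb ?_
    intro n hn
    obtain ⟨hn1, hnT⟩ := I1_nT hT0 hn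
    have hx : xk P T n = (ArithmeticFunction.moebius n : ℝ) * P (Real.log n / Real.log T) := rfl
    rcases I1_supp (θ := 1 / 2 - ε) hn1 hT0 hL with h | h
    · left
      rw [hx, hP.zero _ h, mul_zero]
    · exact Or.inr (h.trans (Real.rpow_le_rpow_of_exponent_le hT1 (by linarith)))
  have h2 : ‖riemannZeta (1 - ((aT T : ℂ) + t * I))‖ ≤ Cz * Real.exp (2 * |t|) := by
    have hne : (1 - ((aT T : ℂ) + t * I)) ≠ 1 := by
      intro h
      have := congrArg Complex.re h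
      rw [hre] at this
      simp at this
      have h' : 0 < (Real.log T)⁻¹ := by positivity
      linarith
    have hd := hCz (1 - ((aT T : ℂ) + t * I)) (by
      rw [hre]
      have : 1 / Real.log T ≤ 1 := by rw [div_le_one hL0]; exact hL
      linarith) (by
      rw [hre]
      have : 0 < 1 / Real.log T := by positivity
      linarith)
    rw [him, abs_neg, Z_of_ne hne, norm_mul] at hd
    have h4 : 1 ≤ ‖(1 - ((aT T : ℂ) + t * I)) - 1‖ := by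
      have h5 := Complex.abs_re_le_norm ((1 - ((aT T : ℂ) + t * I)) - 1)
      rw [Complex.sub_re, hre, Complex.one_re] at h5
      have h6 : 0 < 1 / Real.log T := by positivity
      rw [abs_of_neg (by linarith)] at h5
      linarith
    calc _ = 1 * ‖riemannZeta (1 - ((aT T : ℂ) + t * I))‖ := (one_mul _).symm
      _ ≤ _ := mul_le_mul_of_nonneg_right h4 (norm_nonneg _)
      _ ≤ _ := hd
  have h5 : Real.exp (2 * |t|) ≤ Real.exp (3 * |t|) := by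
    apply Real.exp_le_exp.2
    have := abs_nonneg t
    linarith
  unfold ZM
  rw [norm_mul]
  calc _ ≤ (Cz * Real.exp (2 * |t|)) * (Cp * Real.exp 1 * T ^ (1 / 2 : ℝ)) :=
        mul_le_mul h2 h3 (norm_nonneg _) (by positivity)
    _ = Cz * (Cp * Real.exp 1) * T ^ (1 / 2 : ℝ) * Real.exp (2 * |t|) := by ring
    _ ≤ _ := mul_le_mul_of_nonneg_left h5 (by positivity)

private theorem I1_log {T : ℝ} (hT : 1 ≤ T) : Real.log T ^ 2 ≤ 16 * T ^ (1 / 2 : ℝ) := by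
  have h1 : Real.log T ≤ T ^ (1 / 4 : ℝ) / (1 / 4) :=
    Real.log_le_rpow_div (by linarith) (by norm_num)
  have h2 := pow_le_pow_left₀ (Real.log_nonneg hT) h1 2
  have h3 : (T ^ (1 / 4 : ℝ) / (1 / 4)) ^ 2 = 16 * T ^ (1 / 2 : ℝ) := by
    have h4 : T ^ (1 / 2 : ℝ) = T ^ (1 / 4 : ℝ) * T ^ (1 / 4 : ℝ) := by
      rw [← Real.rpow_add (by linarith)]; norm_num
    rw [h4]; ring
  rwa [h3] at h2

/-- the integrand of `MZ` -/
private noncomputable def I1_G (P : ℝ → ℝ) (T t : ℝ) : ℂ :=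
  Gs T (aT T + t * I) * ZM P T (aT T + t * I) * ZM P T (1 - (aT T + t * I))

private theorem I1_diff {ε : ℝ} (hε : 0 < ε) (hP : Adm (1 / 2 - ε) P) :
    ∃ C T0 : ℝ, 0 ≤ C ∧ ∀ T, T0 ≤ T → ∀ t : ℝ,
      ‖hz P T (ln (bT T) t) - I1_G P T t‖ ≤ C * T ^ (3 / 4 : ℝ) * Real.exp (-(t ^ 2)) := by
  obtain ⟨C1, T1, hC1, h1⟩ := real_ineq
  obtain ⟨C2, hC2, h2⟩ := I1_right hP
  obtain ⟨C3, hC3, h3⟩ := I1_left hε hP
  obtain ⟨C4, hC4, h4⟩ := Ee_bd
  refine ⟨Real.exp 1 * C4 * C2 * C3 * C1 * 16, max T1 (Real.exp 2),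
    by positivity, fun T hT t => ?_⟩
  have hT1 : T1 ≤ T := (le_max_left _ _).trans hT
  have hTe : Real.exp 2 ≤ T := (le_max_right _ _).trans hT
  have hT0 : 0 < T := (Real.exp_pos 2).trans_le hTe
  have hL : 2 ≤ Real.log T := (Real.le_log_iff_exp_le hT0).2 hTe
  have hTge : 1 ≤ T := by
    have := Real.add_one_le_exp 2
    linarith
  have hTe1 : Real.exp 1 ≤ T := (Real.exp_le_exp.2 (by norm_num)).trans hTe
  obtain ⟨hb1, hb2⟩ := bT_bounds hL
  have hw1 : ln (bT T) t ≠ 1 / 2 := by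
    intro h
    have h5 := congrArg Complex.re h
    rw [ln_re] at h5
    norm_num at h5
    linarith
  have hw2 : ln (bT T) t ≠ -(1 / 2) := by
    intro h
    have h5 := congrArg Complex.re h
    rw [ln_re] at h5
    norm_num at h5
    linarith
  have hEq := hz_eq (P := P) (T := T) hw1 hw2
  rw [half_add_ln, half_sub_ln] at hEq
  unfold I1_G
  obtain ⟨F1, hF1⟩ : ∃ F1 : ℂ, F1 = ZM P T (aT T + t * I) := ⟨_, rfl⟩
  obtain ⟨F2, hF2⟩ : ∃ F2 : ℂ, F2 = ZM P T (1 - (aT T + t * I)) := ⟨_, rfl⟩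
  obtain ⟨G, hG⟩ : ∃ G : ℂ, G = Gs T (aT T + t * I) := ⟨_, rfl⟩
  obtain ⟨E, hE⟩ : ∃ E : ℂ, E = Complex.exp (-(zz (ln (bT T) t) ^ 4)) := ⟨_, rfl⟩
  have hEe : Ee (ln (bT T) t) = 1 - E := by rw [hE]; rfl
  rw [hEq, hEe, ← hF1, ← hF2, ← hG]
  have hid : G * (1 - E) * (F1 * F2) - G * F1 * F2 = -(G * E * (F1 * F2)) := by ring
  rw [hid, norm_neg, norm_mul, norm_mul, norm_mul]
  have gE : ‖E‖ ≤ C4 * Real.exp (-(t ^ 4)) := by
    have h5 := h4 (ln (bT T) t) (by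
      rw [ln_re, abs_of_pos (by linarith)]
      exact hb2)
    rw [ln_im, ← hE] at h5
    exact h5
  have gF1 : ‖F1‖ ≤ C2 * Real.log T ^ 2 := by rw [hF1]; exact h2 T (by linarith) t
  have gF2 : ‖F2‖ ≤ C3 * T ^ (1 / 2 : ℝ) * Real.exp (3 * |t|) := by rw [hF2]; exact h3 T hTe1 t
  have gG : ‖G‖ ≤ Real.exp 1 * Real.exp (-((t - T) ^ 2 * Real.log T / T ^ 2)) := by
    rw [hG, ← half_add_ln, Gs_norm, ln_re, ln_im, ← Real.exp_add]
    apply Real.exp_le_exp.2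
    have h5 : Real.log T ≤ T ^ 2 := by
      have := Real.log_le_self hT0.le
      nlinarith
    have h6 : Real.log T / T ^ 2 ≤ 1 := (div_le_one (by positivity)).2 h5
    have h7 : 0 ≤ Real.log T / T ^ 2 := by positivity
    have h8 : bT T ^ 2 ≤ 1 := by nlinarith
    have h9 : bT T ^ 2 * (Real.log T / T ^ 2) ≤ 1 * 1 := mul_le_mul h8 h6 h7 (by norm_num)
    have h10 : (bT T ^ 2 - (t - T) ^ 2) * Real.log T / T ^ 2 =
        bT T ^ 2 * (Real.log T / T ^ 2) - (t - T) ^ 2 * Real.log T / T ^ 2 := by ring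
    rw [h10]
    linarith
  have hre := h1 T hT1 t
  obtain ⟨g, hg⟩ : ∃ g : ℝ, g = Real.exp (-((t - T) ^ 2 * Real.log T / T ^ 2)) := ⟨_, rfl⟩
  rw [← hg] at hre gG
  have hg0 : 0 ≤ g := by rw [hg]; exact (Real.exp_pos _).le
  have hTp : 0 ≤ T ^ (1 / 2 : ℝ) := Real.rpow_nonneg hT0.le _
  have hadd : T ^ (1 / 2 : ℝ) * (T ^ (1 / 2 : ℝ) * T ^ (-(1 / 4) : ℝ)) = T ^ (3 / 4 : ℝ) := by
    rw [← Real.rpow_add hT0, ← Real.rpow_add hT0]
    norm_num
  have m1 : ‖G‖ * ‖E‖ ≤ (Real.exp 1 * g) * (C4 * Real.exp (-(t ^ 4))) :=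
    mul_le_mul gG gE (norm_nonneg _) (by positivity)
  have m2 : ‖F1‖ * ‖F2‖ ≤ (C2 * Real.log T ^ 2) * (C3 * T ^ (1 / 2 : ℝ) * Real.exp (3 * |t|)) :=
    mul_le_mul gF1 gF2 (norm_nonneg _) (by positivity)
  have m3 := mul_le_mul m1 m2 (by positivity) (by positivity)
  refine m3.trans ?_
  calc (Real.exp 1 * g) * (C4 * Real.exp (-(t ^ 4))) *
        ((C2 * Real.log T ^ 2) * (C3 * T ^ (1 / 2 : ℝ) * Real.exp (3 * |t|)))
      = (Real.exp 1 * C4 * C2 * C3 * Real.log T ^ 2 * T ^ (1 / 2 : ℝ)) *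
        (g * Real.exp (3 * |t|) * Real.exp (-(t ^ 4))) := by ring
    _ ≤ (Real.exp 1 * C4 * C2 * C3 * Real.log T ^ 2 * T ^ (1 / 2 : ℝ)) *
        (C1 * T ^ (-(1 / 4) : ℝ) * Real.exp (-(t ^ 2))) := by
        apply mul_le_mul_of_nonneg_left hre
        positivity
    _ ≤ (Real.exp 1 * C4 * C2 * C3 * (16 * T ^ (1 / 2 : ℝ)) * T ^ (1 / 2 : ℝ)) *
        (C1 * T ^ (-(1 / 4) : ℝ) * Real.exp (-(t ^ 2))) := by
        apply mul_le_mul_of_nonneg_right _ (by positivity)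
        apply mul_le_mul_of_nonneg_right _ hTp
        apply mul_le_mul_of_nonneg_left (I1_log hTge) (by positivity)
    _ = Real.exp 1 * C4 * C2 * C3 * C1 * 16 *
        (T ^ (1 / 2 : ℝ) * (T ^ (1 / 2 : ℝ) * T ^ (-(1 / 4) : ℝ))) * Real.exp (-(t ^ 2)) := by ring
    _ = Real.exp 1 * C4 * C2 * C3 * C1 * 16 * T ^ (3 / 4 : ℝ) * Real.exp (-(t ^ 2)) := by rw [hadd]

private theorem I1_cont (P : ℝ → ℝ) {T : ℝ} (hT : 2 ≤ Real.log T) : Continuous (I1_G P T) := by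
  have hL : 0 < 1 / Real.log T := by positivity
  have hG : Continuous fun t : ℝ => Gs T (aT T + t * I) := by
    unfold Gs
    fun_prop
  have hu : Continuous fun t : ℝ => ((aT T : ℂ) + t * I) := by fun_prop
  have hZc : ∀ u : ℝ → ℂ, Continuous u → (∀ t, u t ≠ 1) → Continuous fun t => ZM P T (u t) := by
    intro u hu hne
    unfold ZM
    refine Continuous.mul ?_ ((dpol_differentiable _).continuous.comp hu)
    rw [continuous_iff_continuousAt]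
    intro t
    exact ContinuousAt.comp (f := u) (g := riemannZeta)
      (differentiableAt_riemannZeta (hne t)).continuousAt hu.continuousAt
  unfold I1_G
  refine (hG.mul (hZc _ hu fun t h => ?_)).mul (hZc _ (continuous_const.sub hu) fun t h => ?_)
  · have h5 := congrArg Complex.re h
    have h6 : ((aT T : ℂ) + t * I).re = 1 + 1 / Real.log T := by simp [aT]
    rw [h6, Complex.one_re] at h5
    linarith
  · have h5 := congrArg Complex.re h
    simp [aT] at h5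
    have h6 : 0 < (Real.log T)⁻¹ := by positivity
    linarith

private theorem I1_kill (t : ℝ) : 1 / (t ^ 2 + 9 / 4) ≤
    257 * ((1 - Real.exp (-((t ^ 2 + 1 / 4) ^ 4))) / (t ^ 2 + 1 / 4)) := by
  have hu : (1 / 4 : ℝ) ≤ t ^ 2 + 1 / 4 := by nlinarith [sq_nonneg t]
  generalize hU : t ^ 2 + 1 / 4 = u at hu ⊢
  have h1 : t ^ 2 + 9 / 4 = u + 2 := by linarith
  rw [h1]
  have h2 : (1 / 256 : ℝ) ≤ u ^ 4 := by
    calc (1 / 256 : ℝ) = (1 / 4) ^ 4 := by norm_num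
      _ ≤ u ^ 4 := by gcongr
  have h3 : Real.exp (-(u ^ 4)) ≤ 256 / 257 := by
    have h4 : Real.exp (-(u ^ 4)) ≤ Real.exp (-(1 / 256)) := Real.exp_le_exp.2 (by linarith)
    have h5 : (257 / 256 : ℝ) ≤ Real.exp (1 / 256) := by
      have := Real.add_one_le_exp (1 / 256 : ℝ)
      linarith
    have h6 : Real.exp (-(1 / 256 : ℝ)) ≤ 256 / 257 := by
      rw [Real.exp_neg, inv_le_comm₀ (Real.exp_pos _) (by norm_num)]
      norm_num
      norm_num at h5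
      exact h5
    exact h4.trans h6
  have hu0 : 0 < u := by linarith
  have h4 : (1 : ℝ) ≤ 257 * (1 - Real.exp (-(u ^ 4))) := by linarith
  rw [← mul_div_assoc]
  calc 1 / (u + 2) ≤ 1 / u := one_div_le_one_div_of_le hu0 (by linarith)
    _ ≤ 257 * (1 - Real.exp (-(u ^ 4))) / u := div_le_div_of_nonneg_right h4 hu0.le

/-- block I1 -/
theorem i1 : I1stat := by
  intro ε P hε hε2 hP
  obtain ⟨C, T0, hC, hd⟩ := I1_diff hε hP
  obtain ⟨J, hJ⟩ : ∃ J : ℝ, J = ∫ t : ℝ, Real.exp (-(t ^ 2)) := ⟨_, rfl⟩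
  have hJ0 : 0 ≤ J := by
    rw [hJ]
    exact integral_nonneg fun t => (Real.exp_pos _).le
  refine ⟨257 * (2 * Real.pi + C * J), max T0 (Real.exp 2), by positivity, fun T hT => ?_⟩
  have hTe : Real.exp 2 ≤ T := (le_max_right _ _).trans hT
  have hTp : 0 < T := (Real.exp_pos 2).trans_le hTe
  have hL : 2 ≤ Real.log T := (Real.le_log_iff_exp_le hTp).2 hTe
  have hT1 : 1 < T := by
    have := Real.add_one_le_exp 2
    linarith
  obtain ⟨hb1, hb2⟩ := bT_bounds hL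
  obtain ⟨K, hK⟩ := hz_SD (P := P) hT1
  have hi := hK.integrable (by norm_num) (x := bT T) (by linarith) hb2
  have hc := hK.continuous (x := bT T) (by linarith) hb2
  have hgi : Integrable fun t : ℝ => Real.exp (-(t ^ 2)) := by
    have h1 := integrable_exp_neg_mul_sq (b := 1) one_pos
    refine h1.congr (Filter.Eventually.of_forall fun t => ?_)
    show Real.exp (-1 * t ^ 2) = Real.exp (-(t ^ 2))
    rw [neg_one_mul]
  have hdT := hd T ((le_max_left _ _).trans hT)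
  have hGc := I1_cont P hL
  have hdi : Integrable (fun t => hz P T (ln (bT T) t) - I1_G P T t) :=
    (hgi.const_mul (C * T ^ (3 / 4 : ℝ))).mono' (hc.sub hGc).aestronglyMeasurable
      (Filter.Eventually.of_forall hdT)
  have hGi : Integrable (I1_G P T) := by
    refine (hi.sub hdi).congr (Filter.Eventually.of_forall fun t => ?_)
    show hz P T (ln (bT T) t) - (hz P T (ln (bT T) t) - I1_G P T t) = I1_G P T t
    ring
  have h1 : ‖(∫ t, hz P T (ln (bT T) t)) - ∫ t, I1_G P T t‖ ≤ C * T ^ (3 / 4 : ℝ) * J := by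
    rw [← integral_sub hi hGi, hJ, ← integral_const_mul]
    exact norm_integral_le_of_norm_le (hgi.const_mul _) (Filter.Eventually.of_forall hdT)
  have h2 : ‖∫ t, I1_G P T t‖ = 2 * Real.pi * ‖MZ P T‖ := by
    unfold MZ
    rw [norm_mul, norm_inv, norm_mul, Complex.norm_real, Real.norm_of_nonneg Real.pi_pos.le]
    simp only [Complex.norm_ofNat]
    rw [← mul_assoc, mul_inv_cancel₀ (by positivity), one_mul]
    rfl
  have h3 : ‖∫ t, hz P T (ln (bT T) t)‖ ≤ 2 * Real.pi * ‖MZ P T‖ + C * T ^ (3 / 4 : ℝ) * J := by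
    rw [← h2]
    have h4 := norm_add_le (∫ t, I1_G P T t) ((∫ t, hz P T (ln (bT T) t)) - ∫ t, I1_G P T t)
    rw [add_sub_cancel] at h4
    linarith
  have hsh := (hK.sub (y1 := 0) (y2 := bT T) (by norm_num) hb2).shift (by norm_num) (by linarith)
  rw [← hsh] at h3
  -- the line `Re w = 0`
  obtain ⟨R, hR⟩ : ∃ R : ℝ → ℝ, R = fun t => Pool.Agent.H26.SZ.Gw T t *
      ‖zm P T (1 / 2 + ln 0 t)‖ ^ 2 *
      ((1 - Real.exp (-((t ^ 2 + 1 / 4) ^ 4))) / (t ^ 2 + 1 / 4)) := ⟨_, rfl⟩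
  have hRe : ∀ t, hz P T (ln 0 t) = ((R t : ℝ) : ℂ) := fun t => by rw [hR]; exact hz_line t
  have hRi : Integrable R := by
    have h4 := hK.integrable (by norm_num) (x := 0) (by norm_num) (by norm_num)
    have h5 := h4.re
    refine h5.congr (Filter.Eventually.of_forall fun t => ?_)
    show RCLike.re (hz P T (ln 0 t)) = R t
    rw [hRe]
    simp
  have hR0 : ∀ t, 0 ≤ R t := by
    intro t
    have h5 : 0 ≤ 1 - Real.exp (-((t ^ 2 + 1 / 4) ^ 4)) := by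
      have : Real.exp (-((t ^ 2 + 1 / 4) ^ 4)) ≤ 1 := by
        rw [Real.exp_le_one_iff]
        have : 0 ≤ (t ^ 2 + 1 / 4) ^ 4 := by positivity
        linarith
      linarith
    have h6 := Pool.Agent.H26.SZ.Gw_pos T t
    rw [hR]
    positivity
  have h4 : ‖∫ t, hz P T (ln 0 t)‖ = ∫ t, R t := by
    simp only [hRe]
    rw [integral_complex_ofReal, Complex.norm_real, Real.norm_of_nonneg (integral_nonneg hR0)]
  rw [h4] at h3
  have h5 : J2 (fz P T) 0 ≤ 257 * ∫ t, R t := by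
    unfold J2
    rw [← integral_const_mul]
    refine integral_mono_of_nonneg (Filter.Eventually.of_forall fun t => by positivity)
      (hRi.const_mul 257) (Filter.Eventually.of_forall fun t => ?_)
    show ‖fz P T (ln 0 t)‖ ^ 2 ≤ 257 * R t
    rw [fz_line, hR]
    have h6 := I1_kill t
    have h7 : 0 ≤ Pool.Agent.H26.SZ.Gw T t * ‖zm P T (1 / 2 + ln 0 t)‖ ^ 2 := by
      have := Pool.Agent.H26.SZ.Gw_pos T t
      positivity
    calc Pool.Agent.H26.SZ.Gw T t * ‖zm P T (1 / 2 + ln 0 t)‖ ^ 2 / (t ^ 2 + 9 / 4) =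
          Pool.Agent.H26.SZ.Gw T t * ‖zm P T (1 / 2 + ln 0 t)‖ ^ 2 * (1 / (t ^ 2 + 9 / 4)) := by ring
      _ ≤ Pool.Agent.H26.SZ.Gw T t * ‖zm P T (1 / 2 + ln 0 t)‖ ^ 2 *
          (257 * ((1 - Real.exp (-((t ^ 2 + 1 / 4) ^ 4))) / (t ^ 2 + 1 / 4))) :=
          mul_le_mul_of_nonneg_left h6 h7
      _ = _ := by ring
  have hm : 0 ≤ ‖MZ P T‖ := norm_nonneg _
  have ht : 0 ≤ T ^ (3 / 4 : ℝ) := Real.rpow_nonneg hTp.le _
  have hpi := Real.pi_pos
  have e1 : 0 ≤ C * J * ‖MZ P T‖ := by positivity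
  have e2 : 0 ≤ Real.pi * T ^ (3 / 4 : ℝ) := by positivity
  nlinarith

end Pool.Agent.H17.SZ2
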