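import Pool.Agent.H82.SZ2.Defs

set_option autoImplicit false

open Complex MeasureTheory Filter Topology Set

namespace Pool.Agent.H17.SZ2

open Pool.Agent.H53.SZC (ln SD)

/-- Cauchy-Schwarz -/
theorem cs {Ω : Type*} [MeasurableSpace Ω] (μ : Measure Ω) (u v : Ω → ℝ)
    (hu : Integrable (fun x => u x ^ 2) μ) (hv : Integrable (fun x => v x ^ 2) μ)
    (huv : Integrable (fun x => u x * v x) μ) :
    (∫ x, u x * v x ∂μ) ^ 2 ≤ (∫ x, u x ^ 2 ∂μ) * ∫ x, v x ^ 2 ∂μ := by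
  have h : ∀ c : ℝ, 0 ≤ (∫ x, u x ^ 2 ∂μ) * (c * c) + (2 * ∫ x, u x * v x ∂μ) * c +
      ∫ x, v x ^ 2 ∂μ := by
    intro c
    have h1 : (∫ x, u x ^ 2 ∂μ) * (c * c) + (2 * ∫ x, u x * v x ∂μ) * c + ∫ x, v x ^ 2 ∂μ =
        ∫ x, (c * u x + v x) ^ 2 ∂μ := by
      have h2 : ∀ x, (c * u x + v x) ^ 2 = (c * c) * u x ^ 2 + (2 * c) * (u x * v x) + v x ^ 2 := by
        intro x; ring
      simp only [h2]
      have e1 : ∫ x, (c * c * u x ^ 2 + 2 * c * (u x * v x) + v x ^ 2) ∂μ =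
          ∫ x, (c * c * u x ^ 2 + 2 * c * (u x * v x)) ∂μ + ∫ x, v x ^ 2 ∂μ :=
        integral_add (f := fun x => c * c * u x ^ 2 + 2 * c * (u x * v x))
          ((hu.const_mul _).add (huv.const_mul _)) hv
      have e2 : ∫ x, (c * c * u x ^ 2 + 2 * c * (u x * v x)) ∂μ =
          ∫ x, c * c * u x ^ 2 ∂μ + ∫ x, 2 * c * (u x * v x) ∂μ :=
        integral_add (f := fun x => c * c * u x ^ 2) (hu.const_mul _) (huv.const_mul _)
      rw [e1, e2, integral_const_mul, integral_const_mul]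
      ring
    rw [h1]
    exact integral_nonneg fun x => sq_nonneg _
  have h3 := discrim_le_zero h
  unfold discrim at h3
  nlinarith

private theorem JB_mem {a b K : ℝ} {f : ℂ → ℂ} (h : SD 3 a b K f) {x : ℝ} (h1 : a ≤ x)
    (h2 : x ≤ b) : Integrable (fun t : ℝ => ‖f (ln x t)‖ ^ 2) := by
  have hK := h.nonneg (h1.trans h2)
  refine (integrable_inv_one_add_sq.const_mul (K ^ 2)).mono'
    (((h.continuous h1 h2).norm.pow 2).aestronglyMeasurable) (Filter.Eventually.of_forall fun t => ?_)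
  have h3 := h.bd (ln x t) (by simpa using h1) (by simpa using h2)
  rw [Pool.Agent.H53.SZC.ln_im] at h3
  have h4 : (1 : ℝ) ≤ 1 + t ^ 2 := by nlinarith [sq_nonneg t]
  have h5 : K / (1 + t ^ 2) ^ 3 ≤ K / (1 + t ^ 2) := by
    apply div_le_div_of_nonneg_left hK (by positivity)
    calc (1 + t ^ 2) = (1 + t ^ 2) ^ 1 := (pow_one _).symm
      _ ≤ (1 + t ^ 2) ^ 3 := pow_le_pow_right₀ h4 (by norm_num)
  have h6 : ‖f (ln x t)‖ ≤ K / (1 + t ^ 2) := h3.trans h5
  rw [Real.norm_of_nonneg (by positivity)]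
  have h7 : K / (1 + t ^ 2) ≤ K := div_le_self hK h4
  calc ‖f (ln x t)‖ ^ 2 ≤ (K / (1 + t ^ 2)) ^ 2 := by gcongr
    _ = (K / (1 + t ^ 2)) * (K / (1 + t ^ 2)) := by ring
    _ ≤ K * (K / (1 + t ^ 2)) := by
        apply mul_le_mul_of_nonneg_right h7 (by positivity)
    _ = K ^ 2 * (1 + t ^ 2)⁻¹ := by ring

/-- block JB -/
theorem jb : H82SZ.JBstat := by
  intro a b K f hab h
  set m : ℝ := (a + b) / 2 with hm
  have ham : a ≤ m := by rw [hm]; linarith
  have hmb : m ≤ b := by rw [hm]; linarith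
  have hK := h.nonneg hab.le
  -- the reflected function
  have hconj : ∀ w : ℂ, (starRingEnd ℂ) ((2 * m : ℝ) - w) = ln (2 * m - w.re) w.im := by
    intro w
    apply Complex.ext
    · simp
    · simp
  set H : ℂ → ℂ := fun w => f w * (starRingEnd ℂ) (f ((starRingEnd ℂ) (((2 * m : ℝ) : ℂ) - w)))
    with hH
  have hSD : SD 3 a m (K ^ 2) H := by
    refine ⟨fun w h1 h2 => ?_, fun w h1 h2 => ?_⟩
    · have h3 : DifferentiableAt ℂ f w := h.diff w h1 (h2.trans hmb)
      have h4 : DifferentiableAt ℂ f ((starRingEnd ℂ) (((2 * m : ℝ) : ℂ) - w)) := by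
        rw [hconj]
        apply h.diff
        · simp only [Pool.Agent.H53.SZC.ln_re]; rw [hm] at h2 ⊢; linarith
        · simp only [Pool.Agent.H53.SZC.ln_re]; rw [hm] at h2 ⊢; linarith
      have h5 : DifferentiableAt ℂ ((starRingEnd ℂ) ∘ f ∘ (starRingEnd ℂ))
          (((2 * m : ℝ) : ℂ) - w) := by
        have := h4.conj_conj
        rwa [Complex.conj_conj] at this
      have h6 : DifferentiableAt ℂ (fun w : ℂ => ((2 * m : ℝ) : ℂ) - w) w := by fun_prop
      have h7 := DifferentiableAt.comp w h5 h6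
      exact h3.mul h7
    · have h3 := h.bd w h1 (h2.trans hmb)
      have h4 := h.bd (ln (2 * m - w.re) w.im)
        (by simp only [Pool.Agent.H53.SZC.ln_re]; rw [hm] at h2 ⊢; linarith)
        (by simp only [Pool.Agent.H53.SZC.ln_re]; rw [hm] at h2 ⊢; linarith)
      rw [Pool.Agent.H53.SZC.ln_im] at h4
      have h5 : (1 : ℝ) ≤ 1 + w.im ^ 2 := by nlinarith [sq_nonneg w.im]
      have h6 : (1 : ℝ) ≤ (1 + w.im ^ 2) ^ 3 := one_le_pow₀ h5
      rw [hH]
      simp only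
      rw [hconj, norm_mul, RCLike.norm_conj]
      calc ‖f w‖ * ‖f (ln (2 * m - w.re) w.im)‖
          ≤ (K / (1 + w.im ^ 2) ^ 3) * (K / (1 + w.im ^ 2) ^ 3) :=
            mul_le_mul h3 h4 (norm_nonneg _) (by positivity)
        _ ≤ K * (K / (1 + w.im ^ 2) ^ 3) := by
            apply mul_le_mul_of_nonneg_right (div_le_self hK h6) (by positivity)
        _ = K ^ 2 / (1 + w.im ^ 2) ^ 3 := by ring
  have hsh := hSD.shift (by norm_num) ham
  have hHa : ∀ t : ℝ, H (ln a t) = f (ln a t) * (starRingEnd ℂ) (f (ln b t)) := by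
    intro t
    rw [hH]
    simp only
    rw [hconj]
    simp only [Pool.Agent.H53.SZC.ln_re, Pool.Agent.H53.SZC.ln_im]
    rw [show 2 * m - a = b by rw [hm]; ring]
  have hHm : ∀ t : ℝ, H (ln m t) = ((‖f (ln m t)‖ ^ 2 : ℝ) : ℂ) := by
    intro t
    rw [hH]
    simp only
    rw [hconj]
    simp only [Pool.Agent.H53.SZC.ln_re, Pool.Agent.H53.SZC.ln_im]
    rw [show 2 * m - m = m by ring, Complex.mul_conj, Complex.normSq_eq_norm_sq]
  simp only [hHa, hHm] at hsh
  rw [integral_complex_ofReal] at hsh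
  have hJm : H82SZ.J2 f m = ‖∫ t : ℝ, f (ln a t) * (starRingEnd ℂ) (f (ln b t))‖ := by
    rw [hsh, Complex.norm_real, Real.norm_of_nonneg (integral_nonneg fun t => by positivity)]
    rfl
  have hprod : Integrable (fun t : ℝ => ‖f (ln a t)‖ * ‖f (ln b t)‖) := by
    have h1 := hSD.integrable (by norm_num) le_rfl ham
    have h2 := h1.norm
    refine h2.congr (Filter.Eventually.of_forall fun t => ?_)
    simp only
    rw [hHa, norm_mul, RCLike.norm_conj]
  have hle : H82SZ.J2 f m ≤ ∫ t : ℝ, ‖f (ln a t)‖ * ‖f (ln b t)‖ := by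
    rw [hJm]
    refine (norm_integral_le_integral_norm _).trans (le_of_eq ?_)
    refine integral_congr_ae (Filter.Eventually.of_forall fun t => ?_)
    simp only
    rw [norm_mul, RCLike.norm_conj]
  have hcs := cs volume (fun t : ℝ => ‖f (ln a t)‖) (fun t : ℝ => ‖f (ln b t)‖)
    (JB_mem h le_rfl hab.le) (JB_mem h hab.le le_rfl) hprod
  have h0 : 0 ≤ H82SZ.J2 f m := integral_nonneg fun t => by positivity
  calc H82SZ.J2 f m ^ 2 ≤ (∫ t : ℝ, ‖f (ln a t)‖ * ‖f (ln b t)‖) ^ 2 := by gcongr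
    _ ≤ _ := hcs

end Pool.Agent.H17.SZ2
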