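import Pool.Agent.H17.SZ2.JB

set_option autoImplicit false

open MeasureTheory Filter Topology Set

namespace Pool.Agent.H17.SZ2

private theorem W1_pt (g : ℝ → ℂ) (hg : ContDiff ℝ 2 g) (x s : ℝ) (hxs : x < s) (h0 : g x = 0)
    (h1 : g s = 0) :
    ‖deriv g x‖ ^ 2 ≤ (s - x) * ∫ t in Ioc x s, ‖deriv (deriv g) t‖ ^ 2 := by
  have hd1 : ContDiff ℝ 1 (deriv g) := by
    have h := hg
    rw [show (2 : WithTop ℕ∞) = 1 + 1 by norm_num, contDiff_succ_iff_deriv] at h
    exact h.2.2
  have hd2 : Continuous (deriv (deriv g)) := by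
    have h := hd1
    rw [show (1 : WithTop ℕ∞) = 0 + 1 by norm_num, contDiff_succ_iff_deriv] at h
    exact h.2.2.continuous
  have hdiff : ∀ t, HasDerivAt g (deriv g t) t := fun t =>
    (hg.differentiable (by norm_num)).differentiableAt.hasDerivAt
  have hdiff2 : ∀ t, HasDerivAt (deriv g) (deriv (deriv g) t) t := fun t =>
    (hd1.differentiable (by norm_num)).differentiableAt.hasDerivAt
  have hc1 : Continuous (deriv g) := hd1.continuous
  obtain ⟨J, hJ⟩ : ∃ J : ℝ, J = ∫ t in Ioc x s, ‖deriv (deriv g) t‖ := ⟨_, rfl⟩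
  have hint : ∀ u ∈ Icc x s, ‖deriv g x - deriv g u‖ ≤ J := by
    intro u hu
    have h2 : ∫ t in x..u, deriv (deriv g) t = deriv g u - deriv g x :=
      intervalIntegral.integral_eq_sub_of_hasDerivAt (fun t _ => hdiff2 t)
        (hd2.intervalIntegrable _ _)
    rw [← norm_neg, neg_sub, ← h2]
    refine (intervalIntegral.norm_integral_le_integral_norm hu.1).trans ?_
    rw [intervalIntegral.integral_of_le hu.1, hJ]
    refine setIntegral_mono_set ?_ ?_ ?_
    · exact (hd2.norm.continuousOn.integrableOn_Icc (a := x) (b := s)).mono_set Ioc_subset_Icc_self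
    · exact Filter.Eventually.of_forall fun t => norm_nonneg _
    · exact (Ioc_subset_Ioc_right hu.2).eventuallyLE
  have h3 : ‖deriv g x‖ ≤ J := by
    have h4 : ∫ t in x..s, (deriv g x - deriv g t) = ((s - x : ℝ) : ℂ) * deriv g x := by
      rw [intervalIntegral.integral_sub (by simp) (hc1.intervalIntegrable _ _),
        intervalIntegral.integral_const,
        intervalIntegral.integral_eq_sub_of_hasDerivAt (fun t _ => hdiff t)
        (hc1.intervalIntegrable _ _), h0, h1, sub_zero, sub_zero]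
      simp
    have h5 : ‖∫ t in x..s, (deriv g x - deriv g t)‖ ≤ J * |s - x| := by
      refine intervalIntegral.norm_integral_le_of_norm_le_const fun u hu => ?_
      rw [uIoc_of_le hxs.le] at hu
      exact hint u ⟨hu.1.le, hu.2⟩
    rw [h4, norm_mul, Complex.norm_real, Real.norm_eq_abs, mul_comm J] at h5
    have h6 : 0 < |s - x| := abs_pos.2 (by linarith)
    exact le_of_mul_le_mul_left h5 h6
  have hI : IntegrableOn (fun t => ‖deriv (deriv g) t‖) (Ioc x s) :=
    (hd2.norm.continuousOn.integrableOn_Icc (a := x) (b := s)).mono_set Ioc_subset_Icc_self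
  have hI2 : IntegrableOn (fun t => ‖deriv (deriv g) t‖ ^ 2) (Ioc x s) :=
    ((hd2.norm.pow 2).continuousOn.integrableOn_Icc (a := x) (b := s)).mono_set Ioc_subset_Icc_self
  have hcs := cs (volume.restrict (Ioc x s)) (fun t => ‖deriv (deriv g) t‖) (fun _ => (1 : ℝ)) hI2
    (by simp) (by simp only [mul_one]; exact hI)
  simp only [mul_one, one_pow] at hcs
  have h7 : ∫ _ in Ioc x s, (1 : ℝ) = s - x := by
    rw [setIntegral_const]
    simp [hxs.le]
  rw [h7, ← hJ] at hcs
  calc ‖deriv g x‖ ^ 2 ≤ J ^ 2 := by gcongr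
    _ ≤ _ := hcs
    _ = _ := by ring

private theorem W1_right (g : ℝ → ℂ) (hg : ContDiff ℝ 2 g)
    (hI : Integrable (fun t => ‖deriv (deriv g) t‖ ^ 2)) (h : ℝ) (hh : 0 < h) (F : Finset ℝ)
    (hF : ∀ x ∈ F, g x = 0 ∧ ∃ y, x < y ∧ y ≤ x + h ∧ g y = 0) :
    ∑ x ∈ F, ‖deriv g x‖ ^ 2 ≤ h * ∫ t : ℝ, ‖deriv (deriv g) t‖ ^ 2 := by
  classical
  have hs : ∀ x, ∃ s, x ∈ F → x < s ∧ s ≤ x + h ∧ g s = 0 ∧ ∀ x' ∈ F, x < x' → s ≤ x' := by
    intro x
    by_cases hx : x ∈ F
    · obtain ⟨h0, y, h1, h2, h3⟩ := hF x hx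
      have hne : (insert y (F.filter (fun x' => x < x'))).Nonempty := ⟨y, by simp⟩
      refine ⟨(insert y (F.filter (fun x' => x < x'))).min' hne, fun _ => ?_⟩
      have hmem := Finset.min'_mem _ hne
      have hle : ∀ z ∈ insert y (F.filter (fun x' => x < x')),
          (insert y (F.filter (fun x' => x < x'))).min' hne ≤ z := fun z hz =>
        Finset.min'_le (insert y (F.filter (fun x' => x < x'))) z hz
      generalize (insert y (F.filter (fun x' => x < x'))).min' hne = s at hmem hle ⊢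
      have h4 := Finset.mem_insert.1 hmem
      refine ⟨?_, ?_, ?_, ?_⟩
      · rcases h4 with h4 | h4
        · rw [h4]; exact h1
        · exact (Finset.mem_filter.1 h4).2
      · exact (hle y (Finset.mem_insert_self _ _)).trans h2
      · rcases h4 with h4 | h4
        · rw [h4]; exact h3
        · exact (hF s (Finset.mem_filter.1 h4).1).1
      · intro x' hx' hlt
        exact hle x' (Finset.mem_insert_of_mem (Finset.mem_filter.2 ⟨hx', hlt⟩))
    · exact ⟨0, fun h => absurd h hx⟩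
  choose s hs using hs
  have h1 : ∀ x ∈ F, ‖deriv g x‖ ^ 2 ≤ h * ∫ t in Ioc x (s x), ‖deriv (deriv g) t‖ ^ 2 := by
    intro x hx
    obtain ⟨h2, h3, h4, -⟩ := hs x hx
    refine (W1_pt g hg x (s x) h2 (hF x hx).1 h4).trans ?_
    apply mul_le_mul_of_nonneg_right (by linarith)
    exact integral_nonneg fun t => by positivity
  have hdisj : Set.Pairwise (↑F : Set ℝ) (Function.onFun Disjoint fun x => Ioc x (s x)) := by
    intro x hx y hy hxy
    rw [Finset.mem_coe] at hx hy
    change Disjoint (Ioc x (s x)) (Ioc y (s y))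
    rw [Set.disjoint_left]
    intro t ht1 ht2
    rcases lt_or_gt_of_ne hxy with hlt | hlt
    · have := (hs x hx).2.2.2 y hy hlt
      exact absurd (lt_of_lt_of_le ht2.1 (ht1.2.trans this)) (lt_irrefl _)
    · have := (hs y hy).2.2.2 x hx hlt
      exact absurd (lt_of_lt_of_le ht1.1 (ht2.2.trans this)) (lt_irrefl _)
  have h2 : ∑ x ∈ F, ∫ t in Ioc x (s x), ‖deriv (deriv g) t‖ ^ 2 =
      ∫ t in ⋃ x ∈ F, Ioc x (s x), ‖deriv (deriv g) t‖ ^ 2 := by
    rw [integral_biUnion_finset F (fun x _ => measurableSet_Ioc) hdisj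
      (fun x _ => hI.integrableOn)]
  calc ∑ x ∈ F, ‖deriv g x‖ ^ 2 ≤ ∑ x ∈ F, h * ∫ t in Ioc x (s x), ‖deriv (deriv g) t‖ ^ 2 :=
        Finset.sum_le_sum h1
    _ = h * ∫ t in ⋃ x ∈ F, Ioc x (s x), ‖deriv (deriv g) t‖ ^ 2 := by
        rw [← Finset.mul_sum, h2]
    _ ≤ h * ∫ t : ℝ, ‖deriv (deriv g) t‖ ^ 2 := by
        apply mul_le_mul_of_nonneg_left _ hh.le
        exact setIntegral_le_integral hI (Filter.Eventually.of_forall fun t => by positivity)

/-- block W1 -/
theorem w1 : H82SZ.W1stat := by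
  classical
  intro g hg hI h hh F hF
  obtain ⟨A, hA⟩ : ∃ A : Finset ℝ, A = F.filter (fun x => ∃ y, x < y ∧ y ≤ x + h ∧ g y = 0) :=
    ⟨_, rfl⟩
  obtain ⟨B, hB⟩ : ∃ B : Finset ℝ, B = F.filter (fun x => ¬ ∃ y, x < y ∧ y ≤ x + h ∧ g y = 0) :=
    ⟨_, rfl⟩
  have hsplit : ∑ x ∈ F, ‖deriv g x‖ ^ 2 = ∑ x ∈ A, ‖deriv g x‖ ^ 2 + ∑ x ∈ B, ‖deriv g x‖ ^ 2 := by
    rw [hA, hB]
    exact (Finset.sum_filter_add_sum_filter_not F _ _).symm
  have h1 : ∑ x ∈ A, ‖deriv g x‖ ^ 2 ≤ h * ∫ t : ℝ, ‖deriv (deriv g) t‖ ^ 2 := by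
    refine W1_right g hg hI h hh A fun x hx => ?_
    rw [hA] at hx
    have := Finset.mem_filter.1 hx
    exact ⟨(hF x this.1).1, this.2⟩
  -- the left part by reflection
  have hg' : ContDiff ℝ 2 (fun t => g (-t)) := hg.comp contDiff_neg
  have hd : deriv (fun t => g (-t)) = fun t => -deriv g (-t) := by
    funext t
    exact deriv_comp_neg g t
  have hdd : deriv (deriv (fun t => g (-t))) = fun t => deriv (deriv g) (-t) := by
    rw [hd]
    funext t
    have h2 : deriv (fun t => -deriv g (-t)) t = -deriv (fun t => deriv g (-t)) t := by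
      simp
    rw [h2, deriv_comp_neg (deriv g) t, neg_neg]
  have hI' : Integrable (fun t => ‖deriv (deriv (fun t => g (-t))) t‖ ^ 2) := by
    rw [hdd]
    exact hI.comp_neg
  have h3 : ∑ x ∈ B, ‖deriv g x‖ ^ 2 ≤ h * ∫ t : ℝ, ‖deriv (deriv g) t‖ ^ 2 := by
    have h4 := W1_right (fun t => g (-t)) hg' hI' h hh (B.image (fun x => -x)) (by
      intro x hx
      obtain ⟨z, hz, rfl⟩ := Finset.mem_image.1 hx
      rw [hB] at hz
      obtain ⟨hz1, hz2⟩ := Finset.mem_filter.1 hz
      obtain ⟨h5, y, hy1, hy2, hy3⟩ := hF z hz1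
      refine ⟨by simpa using h5, -y, ?_, ?_, by simpa using hy3⟩
      · rcases lt_or_gt_of_ne hy1 with h6 | h6
        · linarith
        · exfalso
          apply hz2
          refine ⟨y, h6, ?_, hy3⟩
          have := (abs_le.1 hy2).2
          linarith
      · have := (abs_le.1 hy2).1
        linarith)
    rw [Finset.sum_image (fun a _ b _ hab => neg_injective hab)] at h4
    rw [hdd, hd] at h4
    simp only [neg_neg, norm_neg] at h4
    rw [integral_neg_eq_self (fun t => ‖deriv (deriv g) t‖ ^ 2) volume] at h4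
    exact h4
  rw [hsplit]
  linarith

end Pool.Agent.H17.SZ2
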